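import Mathlib

set_option autoImplicit false

open Filter Topology

namespace Pool.Agent.Lib_MP_ff27c1_an

/-- The homeomorphism `T` is distal (both time directions). -/
def IsDistal {X : Type} [MetricSpace X] (T : X ≃ₜ X) : Prop :=
  ∀ x y : X, x ≠ y → ∃ ε : ℝ, 0 < ε ∧ ∀ n : ℕ,
    ε ≤ dist ((⇑T)^[n] x) ((⇑T)^[n] y) ∧ ε ≤ dist ((⇑T.symm)^[n] x) ((⇑T.symm)^[n] y)

/-- A real sequence read off a distal system along an orbit. -/
def DistalSeq (u : ℕ → ℝ) : Prop :=
  ∃ (X : Type) (_ : MetricSpace X) (_ : CompactSpace X) (T : X ≃ₜ X),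
    IsDistal T ∧ ∃ (x : X) (F : X → ℝ), Continuous F ∧ ∀ n, F ((⇑T)^[n] x) = u n

theorem distalSeq_const (c : ℝ) : DistalSeq fun _ => c := by
  refine ⟨Unit, inferInstance, inferInstance, Homeomorph.refl Unit, ?_, (), fun _ => c,
    continuous_const, fun _ => rfl⟩
  intro x y h
  exact absurd (Subsingleton.elim x y) h

/-! ### Skew products -/

section Skew

variable {Y : Type} [MetricSpace Y] [CompactSpace Y]

/-- The skew product of `T` by the circle-valued cocycle `exp (φ y)`. -/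
noncomputable def skew (T : Y ≃ₜ Y) (φ : Y → ℝ) (hφ : Continuous φ) : (Y × Circle) ≃ₜ (Y × Circle) where
  toFun p := (T p.1, p.2 * Circle.exp (φ p.1))
  invFun p := (T.symm p.1, p.2 * Circle.exp (-φ (T.symm p.1)))
  left_inv p := by
    ext1
    · simp
    · simp [mul_assoc]
  right_inv p := by
    ext1
    · simp
    · simp [mul_assoc]
  continuous_toFun := by fun_prop
  continuous_invFun := by fun_prop

theorem dist_mul_circle (z w u : Circle) : dist (z * u) (w * u) = dist z w := by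
  change dist ((z * u : Circle) : ℂ) ((w * u : Circle) : ℂ) = dist (z : ℂ) (w : ℂ)
  rw [dist_eq_norm, dist_eq_norm, Circle.coe_mul, Circle.coe_mul,
    ← sub_mul, norm_mul, Circle.norm_coe, mul_one]

omit [MetricSpace Y] [CompactSpace Y] in
theorem iterate_skewlike (h : Y → Y) (ψ : Y → ℝ) (n : ℕ) (p : Y × Circle) :
    ((fun p : Y × Circle => (h p.1, p.2 * Circle.exp (ψ p.1)))^[n] p) =
      (h^[n] p.1, p.2 * Circle.exp (∑ k ∈ Finset.range n, ψ (h^[k] p.1))) := by
  induction n with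
  | zero => simp
  | succ n ih =>
    rw [Function.iterate_succ_apply', ih, Finset.sum_range_succ]
    simp [Function.iterate_succ_apply', mul_assoc, ← Circle.exp_add]

theorem dist_iterate_skewlike (h : Y → Y) (ψ : Y → ℝ) (p q : Y × Circle) (ε : ℝ)
    (hε : p.1 ≠ q.1 → ∀ n : ℕ, ε ≤ dist (h^[n] p.1) (h^[n] q.1))
    (hε' : p.1 = q.1 → ε ≤ dist p.2 q.2) (n : ℕ) :
    ε ≤ dist ((fun p : Y × Circle => (h p.1, p.2 * Circle.exp (ψ p.1)))^[n] p)
      ((fun p : Y × Circle => (h p.1, p.2 * Circle.exp (ψ p.1)))^[n] q) := by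
  rw [iterate_skewlike, iterate_skewlike, Prod.dist_eq]
  by_cases hpq : p.1 = q.1
  · refine le_trans (hε' hpq) (le_trans ?_ (le_max_right _ _))
    simp only [hpq]
    rw [dist_mul_circle]
  · exact le_trans (hε hpq n) (le_max_left _ _)

theorem isDistal_skew (T : Y ≃ₜ Y) (hT : IsDistal T) (φ : Y → ℝ) (hφ : Continuous φ) :
    IsDistal (skew T φ hφ) := by
  intro p q hpq
  by_cases h : p.1 = q.1
  · have h2 : p.2 ≠ q.2 := fun h2 => hpq (Prod.ext h h2)
    refine ⟨dist p.2 q.2, dist_pos.2 h2, fun n => ⟨?_, ?_⟩⟩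
    · exact dist_iterate_skewlike (⇑T) φ p q _ (fun h' => absurd h h') (fun _ => le_rfl) n
    · exact dist_iterate_skewlike (⇑T.symm) (fun y => -φ (T.symm y)) p q _
        (fun h' => absurd h h') (fun _ => le_rfl) n
  · obtain ⟨ε, hε, hd⟩ := hT p.1 q.1 h
    refine ⟨ε, hε, fun n => ⟨?_, ?_⟩⟩
    · exact dist_iterate_skewlike (⇑T) φ p q _ (fun _ n => (hd n).1) (fun h' => absurd h' h) n
    · exact dist_iterate_skewlike (⇑T.symm) (fun y => -φ (T.symm y)) p q _
        (fun _ n => (hd n).2) (fun h' => absurd h' h) n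

end Skew

theorem distalSeq_cos {u : ℕ → ℝ} (hu : DistalSeq u) (θ : ℝ) :
    DistalSeq fun n => Real.cos (θ + 2 * Real.pi * ∑ k ∈ Finset.range n, u k) := by
  obtain ⟨X, _, _, T, hT, x, F, hF, hFu⟩ := hu
  refine ⟨X × Circle, inferInstance, inferInstance,
    skew T (fun y => 2 * Real.pi * F y) (by fun_prop), isDistal_skew _ hT _ _,
    (x, Circle.exp θ), fun p => (p.2 : ℂ).re, by fun_prop, fun n => ?_⟩
  have h1 := iterate_skewlike (⇑T) (fun y => 2 * Real.pi * F y) n (x, Circle.exp θ)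
  have h2 : (⇑(skew T (fun y => 2 * Real.pi * F y) (by fun_prop)))^[n] (x, Circle.exp θ) =
      ((⇑T)^[n] x, Circle.exp θ *
        Circle.exp (∑ k ∈ Finset.range n, 2 * Real.pi * F ((⇑T)^[k] x))) := h1
  rw [h2]
  simp only [hFu]
  rw [← Circle.exp_add, Circle.coe_exp, Complex.exp_ofReal_mul_I_re, ← Finset.mul_sum]

/-! ### Countable products -/

/-- Clip a real to `[-1, 1]`. -/
noncomputable def clip (t : ℝ) : ℝ := max (-1) (min 1 t)

theorem continuous_clip : Continuous clip := by unfold clip; fun_prop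

theorem abs_clip_le (t : ℝ) : |clip t| ≤ 1 := by
  unfold clip
  rw [abs_le]
  constructor
  · exact le_max_left _ _
  · exact max_le (by norm_num) (min_le_left _ _)

theorem clip_eq {t : ℝ} (h : |t| ≤ 1) : clip t = t := by
  rw [abs_le] at h
  unfold clip
  rw [min_eq_right h.2, max_eq_right h.1]

theorem summable_clip (t : ℕ → ℝ) : Summable fun m => (1 / 2 : ℝ) ^ m * clip (t m) := by
  refine Summable.of_norm_bounded (g := fun m => (1 / 2 : ℝ) ^ m) summable_geometric_two ?_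
  intro m
  rw [norm_mul, Real.norm_eq_abs, Real.norm_eq_abs]
  have := abs_clip_le (t m)
  have h2 : |(1 / 2 : ℝ) ^ m| = (1 / 2 : ℝ) ^ m := abs_of_nonneg (by positivity)
  rw [h2]
  have h3 : (0 : ℝ) ≤ (1 / 2 : ℝ) ^ m := by positivity
  nlinarith

open scoped PiCountable in
theorem distalSeq_tsum {u : ℕ → ℕ → ℝ} (hu : ∀ m, DistalSeq (u m)) :
    DistalSeq fun n => ∑' m, (1 / 2 : ℝ) ^ m * clip (u m n) := by
  choose X iM iC T hT x F hF hFu using hu
  let iM' : MetricSpace (∀ m, X m) := PiCountable.metricSpace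
  let S : (∀ m, X m) ≃ₜ (∀ m, X m) := Homeomorph.piCongrRight T
  have hS1 : ∀ (n : ℕ) (p : ∀ m, X m) (m : ℕ), ((⇑S)^[n] p) m = (⇑(T m))^[n] (p m) := by
    intro n
    induction n with
    | zero => intro p m; rfl
    | succ n ih => intro p m; rw [Function.iterate_succ_apply, Function.iterate_succ_apply, ih]; rfl
  have hS2 : ∀ (n : ℕ) (p : ∀ m, X m) (m : ℕ), ((⇑S.symm)^[n] p) m = (⇑(T m).symm)^[n] (p m) := by
    intro n
    induction n with
    | zero => intro p m; rfl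
    | succ n ih => intro p m; rw [Function.iterate_succ_apply, Function.iterate_succ_apply, ih]; rfl
  refine ⟨∀ m, X m, iM', ?_, S, ?_, x, fun p => ∑' m, (1 / 2 : ℝ) ^ m * clip (F m (p m)), ?_, ?_⟩
  · exact (inferInstance : CompactSpace (∀ m, X m))
  · intro p q hpq
    obtain ⟨m, hm⟩ := Function.ne_iff.1 hpq
    obtain ⟨ε, hε, hd⟩ := hT m (p m) (q m) hm
    refine ⟨min (2⁻¹ ^ Encodable.encode m) ε, lt_min (by positivity) hε, fun n => ⟨?_, ?_⟩⟩
    · refine le_trans ?_ (PiCountable.min_dist_le_dist_pi _ _ m)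
      refine min_le_min_left _ ?_
      rw [hS1, hS1]
      exact (hd n).1
    · refine le_trans ?_ (PiCountable.min_dist_le_dist_pi _ _ m)
      refine min_le_min_left _ ?_
      rw [hS2, hS2]
      exact (hd n).2
  · refine continuous_tsum (u := fun m => (1 / 2 : ℝ) ^ m) ?_ summable_geometric_two ?_
    · intro m
      exact continuous_const.mul (continuous_clip.comp ((hF m).comp (continuous_apply m)))
    · intro m p
      rw [norm_mul, Real.norm_eq_abs, Real.norm_eq_abs]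
      have := abs_clip_le (F m (p m))
      have h2 : |(1 / 2 : ℝ) ^ m| = (1 / 2 : ℝ) ^ m := abs_of_nonneg (by positivity)
      rw [h2]
      have h3 : (0 : ℝ) ≤ (1 / 2 : ℝ) ^ m := by positivity
      nlinarith
  · intro n
    simp only [hS1, hFu]

/-! ### Interpolation sets -/

/-- Every sequence with values in `[-1, 1]` agrees on `S` with a distal sequence. -/
def DI (S : Set ℕ) : Prop :=
  ∀ f : ℕ → ℝ, (∀ n, |f n| ≤ 1) → ∃ u, DistalSeq u ∧ ∀ n ∈ S, u n = f n

theorem DI.mono {S S' : Set ℕ} (h : DI S') (hS : S ⊆ S') : DI S := by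
  intro f hf
  obtain ⟨u, hu, huf⟩ := h f hf
  exact ⟨u, hu, fun n hn => huf n (hS hn)⟩

theorem DI_empty : DI ∅ := fun _ _ => ⟨fun _ => 0, distalSeq_const 0, fun n hn => absurd hn (by simp)⟩

/-- From real to complex interpolation. -/
theorem DI.complex {S : Set ℕ} (h : DI S) (f : ℕ → ℂ) (hf : ∃ C : ℝ, ∀ n, ‖f n‖ ≤ C) :
    ∃ (X : Type) (_ : MetricSpace X) (_ : CompactSpace X) (T : X ≃ₜ X),
        (∀ x y : X, x ≠ y → ∃ ε : ℝ, 0 < ε ∧ ∀ n : ℕ,
            ε ≤ dist ((⇑T)^[n] x) ((⇑T)^[n] y) ∧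
            ε ≤ dist ((⇑T.symm)^[n] x) ((⇑T.symm)^[n] y)) ∧
        ∃ (x : X) (F : X → ℂ), Continuous F ∧
          ∀ p : ℕ, p ∈ S → F ((⇑T)^[p] x) = f p := by
  obtain ⟨C, hC⟩ := hf
  set D : ℝ := max C 1 with hD
  have hD0 : 0 < D := lt_of_lt_of_le one_pos (le_max_right _ _)
  have hfD : ∀ n, ‖f n‖ ≤ D := fun n => (hC n).trans (le_max_left _ _)
  obtain ⟨u, ⟨X, _, _, T, hT, x, F, hF, hFu⟩, hu⟩ := h (fun n => (f n).re / D) (fun n => by
    rw [abs_div, abs_of_pos hD0, div_le_one hD0]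
    exact (Complex.abs_re_le_norm _).trans (hfD n))
  obtain ⟨v, ⟨Y, _, _, R, hR, y, G, hG, hGv⟩, hv⟩ := h (fun n => (f n).im / D) (fun n => by
    rw [abs_div, abs_of_pos hD0, div_le_one hD0]
    exact (Complex.abs_im_le_norm _).trans (hfD n))
  have hit1 : ∀ (n : ℕ) (p : X × Y), (⇑(T.prodCongr R))^[n] p = ((⇑T)^[n] p.1, (⇑R)^[n] p.2) := by
    intro n
    induction n with
    | zero => intro p; rfl
    | succ n ih => intro p; rw [Function.iterate_succ_apply, ih]; rfl
  have hit2 : ∀ (n : ℕ) (p : X × Y),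
      (⇑(T.prodCongr R).symm)^[n] p = ((⇑T.symm)^[n] p.1, (⇑R.symm)^[n] p.2) := by
    intro n
    induction n with
    | zero => intro p; rfl
    | succ n ih => intro p; rw [Function.iterate_succ_apply, ih]; rfl
  refine ⟨X × Y, inferInstance, inferInstance, T.prodCongr R, ?_, (x, y),
    fun p => (D : ℂ) * ((F p.1 : ℂ) + (G p.2 : ℂ) * Complex.I), by fun_prop, ?_⟩
  · intro p q hpq
    by_cases h1 : p.1 = q.1
    · have h2 : p.2 ≠ q.2 := fun h2 => hpq (Prod.ext h1 h2)
      obtain ⟨ε, hε, hd⟩ := hR _ _ h2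
      refine ⟨ε, hε, fun n => ?_⟩
      rw [hit1, hit1, hit2, hit2, Prod.dist_eq, Prod.dist_eq]
      exact ⟨(hd n).1.trans (le_max_right _ _), (hd n).2.trans (le_max_right _ _)⟩
    · obtain ⟨ε, hε, hd⟩ := hT _ _ h1
      refine ⟨ε, hε, fun n => ?_⟩
      rw [hit1, hit1, hit2, hit2, Prod.dist_eq, Prod.dist_eq]
      exact ⟨(hd n).1.trans (le_max_left _ _), (hd n).2.trans (le_max_left _ _)⟩
  · intro n hn
    rw [hit1]
    simp only [hFu, hGv, hu n hn, hv n hn]
    apply Complex.ext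
    · simp
      field_simp
    · simp
      field_simp

end Pool.Agent.Lib_MP_ff27c1_an
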