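import Mathlib
import Pool.Agent.Lib_MP_ff27c1_an.DistalSeq

set_option autoImplicit false

open Filter Topology

namespace Pool.Agent.Lib_MP_ff27c1_an

/-- The union of the intervals `[u, u')` with `u, u' ∈ S` and `u' ≤ u + H`. -/
def B (H : ℕ) (S : Set ℕ) : Set ℕ :=
  {n | ∃ u u', u ∈ S ∧ u' ∈ S ∧ u ≤ n ∧ n < u' ∧ u' ≤ u + H}

/-- Consecutive elements of `S`. -/
def Cons (S : Set ℕ) (s s' : ℕ) : Prop :=
  s ∈ S ∧ s' ∈ S ∧ s < s' ∧ ∀ t, s < t → t < s' → t ∉ S

theorem Cons.unique {S : Set ℕ} {s s' r r' k : ℕ} (h : Cons S s s') (h' : Cons S r r')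
    (h1 : s ≤ k) (h2 : k < s') (h3 : r ≤ k) (h4 : k < r') : s = r ∧ s' = r' := by
  have hs : s = r := by
    rcases lt_trichotomy s r with hlt | heq | hgt
    · exact absurd h'.1 (h.2.2.2 r hlt (by omega))
    · exact heq
    · exact absurd h.1 (h'.2.2.2 s hgt (by omega))
  refine ⟨hs, ?_⟩
  rcases lt_trichotomy s' r' with hlt | heq | hgt
  · exact absurd h.2.1 (h'.2.2.2 s' (by have := h.2.2.1; omega) hlt)
  · exact heq
  · exact absurd h'.2.1 (h.2.2.2 r' (by have := h'.2.2.1; omega) hgt)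

theorem stage {S : Set ℕ} (h : ∀ H, DI (B H S)) (ψ : ℕ → ℝ) (w : ℕ → ℝ) (m : ℕ) :
    ∃ u, DistalSeq u ∧
      (∀ s s' k, Cons S s s' → s' < s + 2 ^ m → s ≤ k → k < s' →
        (1 / 2 : ℝ) ^ m * clip (u k) = 0) ∧
      (∀ s s', Cons S s s' → s + 2 ^ m ≤ s' → s' < s + 2 ^ (m + 1) →
        ∃ z : ℤ, ∑ k ∈ Finset.Ico s s', (w k + (1 / 2 : ℝ) ^ m * clip (u k)) =
          ψ s' - ψ s + z) := by
  classical
  -- residual
  let X : ℕ → ℕ → ℝ := fun s s' => ψ s' - ψ s - ∑ k ∈ Finset.Ico s s', w k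
  let ρ : ℕ → ℕ → ℝ := fun s s' => X s s' - round (X s s')
  have hρ : ∀ s s', |ρ s s'| ≤ 1 / 2 := fun s s' => abs_sub_round _
  let P : ℕ → ℕ × ℕ → Prop := fun k p => Cons S p.1 p.2 ∧ p.1 + 2 ^ m ≤ p.2 ∧ p.1 ≤ k ∧ k < p.2
  let t : ℕ → ℝ := fun k => if hk : ∃ p, P k p then
    ρ (Classical.choose hk).1 (Classical.choose hk).2 /
      ((((Classical.choose hk).2 - (Classical.choose hk).1 : ℕ)) : ℝ) * 2 ^ m else 0
  have ht1 : ∀ k s s', P k (s, s') → t k = ρ s s' / (((s' - s : ℕ)) : ℝ) * 2 ^ m := by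
    intro k s s' hP
    have hk : ∃ p, P k p := ⟨_, hP⟩
    have hc := Classical.choose_spec hk
    have huniq := Cons.unique hc.1 hP.1 hc.2.2.1 hc.2.2.2 hP.2.2.1 hP.2.2.2
    simp only [t]
    rw [dif_pos hk, huniq.1, huniq.2]
  have ht2 : ∀ k, |t k| ≤ 1 := by
    intro k
    by_cases hk : ∃ p, P k p
    · obtain ⟨⟨s, s'⟩, hP⟩ := hk
      rw [ht1 k s s' hP]
      have hg : s + 2 ^ m ≤ s' := hP.2.1
      have hg' : (2 : ℝ) ^ m ≤ (((s' - s : ℕ)) : ℝ) := by
        have : 2 ^ m ≤ s' - s := by omega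
        calc (2 : ℝ) ^ m = ((2 ^ m : ℕ) : ℝ) := by norm_num
          _ ≤ _ := by exact_mod_cast this
      have hpos : (0 : ℝ) < 2 ^ m := by positivity
      have hpos' : (0 : ℝ) < (((s' - s : ℕ)) : ℝ) := lt_of_lt_of_le hpos hg'
      rw [abs_mul, abs_div, abs_of_pos hpos', abs_of_pos hpos, div_mul_eq_mul_div,
        div_le_one hpos']
      have h1 := hρ s s'
      have h0 := abs_nonneg (ρ s s')
      nlinarith
    · simp only [t]
      rw [dif_neg hk]
      simp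
  obtain ⟨u, hu, huf⟩ := h (2 ^ (m + 1)) t ht2
  refine ⟨u, hu, ?_, ?_⟩
  · intro s s' k hc hlt hk1 hk2
    have hkB : k ∈ B (2 ^ (m + 1)) S :=
      ⟨s, s', hc.1, hc.2.1, hk1, hk2, by
        have : 2 ^ m ≤ 2 ^ (m + 1) := Nat.pow_le_pow_right (by norm_num) (by omega)
        omega⟩
    rw [huf k hkB, clip_eq (ht2 k)]
    have hno : ¬ ∃ p, P k p := by
      rintro ⟨⟨r, r'⟩, hP⟩
      have huniq := Cons.unique hP.1 hc hP.2.2.1 hP.2.2.2 hk1 hk2
      have h1 : r + 2 ^ m ≤ r' := hP.2.1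
      have h2 : r = s := huniq.1
      have h3 : r' = s' := huniq.2
      omega
    simp only [t]
    rw [dif_neg hno, mul_zero]
  · intro s s' hc hge hlt
    refine ⟨-round (X s s'), ?_⟩
    have hsum : ∑ k ∈ Finset.Ico s s', (w k + (1 / 2 : ℝ) ^ m * clip (u k)) =
        ∑ k ∈ Finset.Ico s s', (w k + ρ s s' / (((s' - s : ℕ)) : ℝ)) := by
      refine Finset.sum_congr rfl fun k hk => ?_
      rw [Finset.mem_Ico] at hk
      have hkB : k ∈ B (2 ^ (m + 1)) S :=
        ⟨s, s', hc.1, hc.2.1, hk.1, hk.2, by omega⟩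
      rw [huf k hkB, clip_eq (ht2 k), ht1 k s s' ⟨hc, hge, hk.1, hk.2⟩]
      congr 1
      have : (1 / 2 : ℝ) ^ m * 2 ^ m = 1 := by
        rw [← mul_pow]; norm_num
      calc (1 / 2 : ℝ) ^ m * (ρ s s' / ((s' - s : ℕ) : ℝ) * 2 ^ m)
          = ((1 / 2 : ℝ) ^ m * 2 ^ m) * (ρ s s' / ((s' - s : ℕ) : ℝ)) := by ring
        _ = _ := by rw [this, one_mul]
    rw [hsum, Finset.sum_add_distrib, Finset.sum_const, Nat.card_Ico, nsmul_eq_mul]
    have hpos' : (((s' - s : ℕ)) : ℝ) ≠ 0 := by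
      have := hc.2.2.1
      have : s' - s ≠ 0 := by omega
      exact_mod_cast this
    rw [mul_div_cancel₀ _ hpos']
    simp only [ρ, X]
    push_cast
    ring

theorem DI_of_gaps {S : Set ℕ} (h : ∀ H, DI (B H S)) : DI S := by
  classical
  intro f hf
  rcases S.eq_empty_or_nonempty with rfl | hne
  · exact ⟨fun _ => 0, distalSeq_const 0, fun n hn => absurd hn (by simp)⟩
  let ψ : ℕ → ℝ := fun n => Real.arccos (f n) / (2 * Real.pi)
  let W : ℕ → ℕ → ℝ := fun m => Nat.rec (fun _ => (0 : ℝ))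
    (fun m w k => w k + (1 / 2 : ℝ) ^ m * clip (Classical.choose (stage h ψ w m) k)) m
  let U : ℕ → ℕ → ℝ := fun m => Classical.choose (stage h ψ (W m) m)
  have hW : ∀ m k, W (m + 1) k = W m k + (1 / 2 : ℝ) ^ m * clip (U m k) := fun m k => rfl
  have hU := fun m => Classical.choose_spec (stage h ψ (W m) m)
  have hWsum : ∀ m k, W m k = ∑ i ∈ Finset.range m, (1 / 2 : ℝ) ^ i * clip (U i k) := by
    intro m k
    induction m with
    | zero => simp [W]
    | succ m ih => rw [hW, ih, Finset.sum_range_succ]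
  let v : ℕ → ℝ := fun k => ∑' m, (1 / 2 : ℝ) ^ m * clip (U m k)
  have hv : DistalSeq v := distalSeq_tsum fun m => (hU m).1
  have hgap : ∀ s s', Cons S s s' → ∃ z : ℤ, ∑ k ∈ Finset.Ico s s', v k = ψ s' - ψ s + z := by
    intro s s' hc
    have hlt := hc.2.2.1
    set m := Nat.log 2 (s' - s) with hm
    have h1 : 2 ^ m ≤ s' - s := Nat.pow_log_le_self 2 (by omega)
    have h2 : s' - s < 2 ^ (m + 1) := Nat.lt_pow_succ_log_self (by norm_num) _
    obtain ⟨z, hz⟩ := (hU m).2.2 s s' hc (by omega) (by omega)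
    refine ⟨z, ?_⟩
    rw [← hz]
    refine Finset.sum_congr rfl fun k hk => ?_
    rw [Finset.mem_Ico] at hk
    have h3 : v k = W (m + 1) k := by
      refine Eq.trans ?_ (hWsum (m + 1) k).symm
      refine tsum_eq_sum fun i hi => ?_
      rw [Finset.mem_range, not_lt] at hi
      refine (hU i).2.1 s s' k hc ?_ hk.1 hk.2
      have : 2 ^ (m + 1) ≤ 2 ^ i := Nat.pow_le_pow_right (by norm_num) hi
      omega
    rw [h3, hW]
  obtain ⟨s₀, hs₀, hmin⟩ : ∃ s₀ ∈ S, ∀ s ∈ S, s₀ ≤ s :=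
    ⟨sInf S, Nat.sInf_mem hne, fun s hs => Nat.sInf_le hs⟩
  let θ : ℝ := Real.arccos (f s₀) - 2 * Real.pi * ∑ k ∈ Finset.range s₀, v k
  refine ⟨_, distalSeq_cos hv θ, ?_⟩
  have key : ∀ n, n ∈ S → ∃ z : ℤ, θ + 2 * Real.pi * ∑ k ∈ Finset.range n, v k =
      Real.arccos (f n) + z * (2 * Real.pi) := by
    intro n
    induction n using Nat.strong_induction_on with
    | _ n ih =>
      intro hn
      rcases eq_or_lt_of_le (hmin n hn) with heq | hlt
      · refine ⟨0, ?_⟩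
        rw [← heq]
        simp [θ]
      · -- the predecessor
        obtain ⟨p, hp1, hp2, hp3⟩ : ∃ p, p ∈ S ∧ p < n ∧ ∀ t, p < t → t < n → t ∉ S := by
          have hfin : (((Finset.range n).filter (· ∈ S))).Nonempty :=
            ⟨s₀, Finset.mem_filter.2 ⟨Finset.mem_range.2 hlt, hs₀⟩⟩
          refine ⟨_, (Finset.mem_filter.1 (Finset.max'_mem _ hfin)).2,
            Finset.mem_range.1 (Finset.mem_filter.1 (Finset.max'_mem _ hfin)).1, ?_⟩
          intro t ht1 ht2 ht3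
          have := Finset.le_max' ((Finset.range n).filter (· ∈ S)) t
            (Finset.mem_filter.2 ⟨Finset.mem_range.2 ht2, ht3⟩)
          omega
        obtain ⟨z, hz⟩ := ih p hp2 hp1
        obtain ⟨z', hz'⟩ := hgap p n ⟨hp1, hn, hp2, hp3⟩
        refine ⟨z + z', ?_⟩
        rw [← Finset.sum_range_add_sum_Ico _ hp2.le, mul_add, ← add_assoc, hz, hz']
        simp only [ψ]
        have hpi : (2 * Real.pi) ≠ 0 := by positivity
        push_cast
        field_simp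
        ring
  intro n hn
  obtain ⟨z, hz⟩ := key n hn
  show Real.cos (θ + 2 * Real.pi * ∑ k ∈ Finset.range n, v k) = f n
  rw [hz, Real.cos_add_int_mul_two_pi]
  have := abs_le.1 (hf n)
  exact Real.cos_arccos this.1 this.2

theorem B_mono {H : ℕ} {S S' : Set ℕ} (h : S ⊆ S') : B H S ⊆ B H S' := by
  rintro n ⟨u, u', h1, h2, h3⟩
  exact ⟨u, u', h h1, h h2, h3⟩

theorem DI_of_finite {S : Set ℕ} (h : S.Finite) : DI S := by
  have key : ∀ N : ℕ, DI (Set.Iio N) := by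
    intro N
    induction N with
    | zero => exact DI_empty.mono (by intro n hn; simp at hn)
    | succ N ih =>
      refine DI_of_gaps fun H => ih.mono ?_
      rintro n ⟨u, u', h1, h2, h3, h4, h5⟩
      simp only [Set.mem_Iio] at *
      omega
  obtain ⟨N, hN⟩ := h.bddAbove
  exact (key (N + 1)).mono fun n hn => Set.mem_Iio.2 (Nat.lt_succ_of_le (hN hn))

end Pool.Agent.Lib_MP_ff27c1_an
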