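import Mathlib
import Pool.Agent.Lib_MP_ff27c1_an.Gap

set_option autoImplicit false

namespace Pool.Agent.Lib_MP_ff27c1_an

/-- The hulls of pairs of distinct intervals of `W` separated by a gap at most `H`. -/
def C (H : ℕ) (W : Set ℕ) : Set ℕ :=
  {n | ∃ a b c d, a ≤ b ∧ b < c ∧ c ≤ d ∧ a ≤ n ∧ n ≤ d ∧ (∀ x, a ≤ x → x ≤ b → x ∈ W) ∧
    (∀ x, c ≤ x → x ≤ d → x ∈ W) ∧ c ≤ b + H ∧ b + 1 ∉ W}

/-- Points `n` with `n, …, n + k ∈ W`. -/
def Run (k : ℕ) (W : Set ℕ) : Set ℕ := {n | ∀ i ≤ k, n + i ∈ W}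

theorem exists_greatest (P : ℕ → Prop) (n : ℕ) (h : ∃ m, m < n ∧ P m) :
    ∃ m, m < n ∧ P m ∧ ∀ x, m < x → x < n → ¬ P x := by
  classical
  obtain ⟨m, hm, hPm⟩ := h
  have hne : ((Finset.range n).filter P).Nonempty :=
    ⟨m, Finset.mem_filter.2 ⟨Finset.mem_range.2 hm, hPm⟩⟩
  refine ⟨_, Finset.mem_range.1 (Finset.mem_filter.1 (Finset.max'_mem _ hne)).1,
    (Finset.mem_filter.1 (Finset.max'_mem _ hne)).2, ?_⟩
  intro x hx1 hx2 hx3
  have := Finset.le_max' _ x (Finset.mem_filter.2 ⟨Finset.mem_range.2 hx2, hx3⟩)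
  omega

theorem exists_least (P : ℕ → Prop) (n : ℕ) (h : ∃ m, n ≤ m ∧ P m) :
    ∃ m, n ≤ m ∧ P m ∧ ∀ x, n ≤ x → x < m → ¬ P x := by
  classical
  refine ⟨Nat.find h, (Nat.find_spec h).1, (Nat.find_spec h).2, ?_⟩
  intro x hx1 hx2 hx3
  exact Nat.find_min h hx2 ⟨hx1, hx3⟩

theorem C_mono_left {H H' : ℕ} (h : H ≤ H') (W : Set ℕ) : C H W ⊆ C H' W := by
  rintro n ⟨a, b, c, d, h1, h2, h3, h4, h5, h6, h7, h8, h9⟩
  exact ⟨a, b, c, d, h1, h2, h3, h4, h5, h6, h7, by omega, h9⟩

theorem hole {W : Set ℕ} {H u u' n v : ℕ} (hu : u ∈ W) (hu' : u' ∈ W) (h1 : u ≤ n) (h2 : n ≤ u')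
    (h3 : u' ≤ u + H) (hv : v ∉ W) (hv1 : u < v) (hv2 : v < u') : n ∈ C H W := by
  by_cases hA : ∃ m, n ≤ m ∧ (m < u' ∧ m ∉ W)
  · obtain ⟨v', hv'1, ⟨hv'2, hv'3⟩, hv'4⟩ := exists_least _ _ hA
    have huv : u < v' := lt_of_le_of_ne (h1.trans hv'1) (fun h => hv'3 (h ▸ hu))
    obtain ⟨b, hb1, hb2, hb3⟩ := exists_greatest (· ∈ W) v' ⟨u, huv, hu⟩
    obtain ⟨c, hc1, hc2, hc3⟩ := exists_least (· ∈ W) (v' + 1) ⟨u', by omega, hu'⟩
    have hcu : c ≤ u' := by
      by_contra hcon
      exact hc3 u' (by omega) (by omega) hu'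
    have hub : u ≤ b := by
      by_contra hcon
      exact hb3 u (by omega) huv hu
    refine ⟨min n b, b, c, c, min_le_right _ _, by omega, le_rfl, min_le_left _ _, by omega, ?_, ?_,
      by omega, ?_⟩
    · intro x hx1 hx2
      rcases le_or_gt n b with hnb | hnb
      · rw [min_eq_left hnb] at hx1
        by_contra hxW
        exact hv'4 x hx1 (by omega) ⟨by omega, hxW⟩
      · rw [min_eq_right hnb.le] at hx1
        have : x = b := by omega
        rw [this]; exact hb2
    · intro x hx1 hx2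
      have : x = c := by omega
      rw [this]; exact hc2
    · intro hb
      rcases eq_or_lt_of_le (show b + 1 ≤ v' by omega) with heq | hlt
      · exact hv'3 (heq ▸ hb)
      · exact hb3 (b + 1) (by omega) hlt hb
  · push Not at hA
    have hvn : v < n := by
      by_contra hcon
      exact hv (hA v (by omega) hv2)
    obtain ⟨v', hv'1, hv'2, hv'3⟩ := exists_greatest (· ∉ W) n ⟨v, hvn, hv⟩
    have hvv' : v ≤ v' := by
      by_contra hcon
      exact hv'3 v (by omega) hvn hv
    obtain ⟨b, hb1, hb2, hb3⟩ := exists_greatest (· ∈ W) v' ⟨u, by omega, hu⟩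
    have hub : u ≤ b := by
      by_contra hcon
      exact hb3 u (by omega) (by omega) hu
    refine ⟨b, b, v' + 1, n, le_rfl, by omega, by omega, by omega, le_rfl, ?_, ?_, by omega, ?_⟩
    · intro x hx1 hx2
      have : x = b := by omega
      rw [this]; exact hb2
    · intro x hx1 hx2
      rcases eq_or_lt_of_le hx2 with heq | hlt
      · rcases eq_or_lt_of_le h2 with heq' | hlt'
        · rw [heq, heq']; exact hu'
        · rw [heq]; exact hA n le_rfl hlt'
      · by_contra hxW
        exact hv'3 x (by omega) hlt hxW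
    · intro hb
      rcases eq_or_lt_of_le (show b + 1 ≤ v' by omega) with heq | hlt
      · exact hv'2 (heq ▸ hb)
      · exact hb3 (b + 1) (by omega) hlt hb

theorem B_subset (W : Set ℕ) (H H' k : ℕ) :
    B H' (C H W ∪ Run k W) ⊆ C (max H H') W ∪ Run (k + 1) W := by
  rintro n ⟨u, u', hu, hu', h1, h2, h3⟩
  have hC : C H W ⊆ C (max H H') W := C_mono_left (le_max_left _ _) W
  have hC' : C H' W ⊆ C (max H H') W := C_mono_left (le_max_right _ _) W
  have run0 : ∀ x, x ∈ Run k W → x ∈ W := fun x hx => by simpa using hx 0 (Nat.zero_le _)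
  rcases hu with hu | hu
  · obtain ⟨a, b, c, d, e1, e2, e3, e4, e5, e6, e7, e8, e9⟩ := hu
    rcases le_or_gt n d with hnd | hnd
    · left
      exact hC ⟨a, b, c, d, e1, e2, e3, by omega, hnd, e6, e7, e8, e9⟩
    · -- sublemma
      have sub : ∀ u'', u'' ∈ W → n ≤ u'' → u'' ≤ d + H' → n ∈ C (max H H') W := by
        intro u'' g1 g2 g3
        by_cases hv : ∃ v, d < v ∧ v < u'' ∧ v ∉ W
        · obtain ⟨v, hv1, hv2, hv3⟩ := hv
          exact hC' (hole (e7 d e3 le_rfl) g1 hnd.le g2 g3 hv3 hv1 hv2)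
        · push Not at hv
          refine hC ⟨a, b, c, n, e1, e2, by omega, by omega, le_rfl, e6, ?_, e8, e9⟩
          intro x hx1 hx2
          rcases le_or_gt x d with hxd | hxd
          · exact e7 x hx1 hxd
          · rcases eq_or_lt_of_le (show x ≤ u'' by omega) with heq | hlt
            · rw [heq]; exact g1
            · exact hv x hxd hlt
      rcases hu' with hu' | hu'
      · obtain ⟨a', b', c', d', f1, f2, f3, f4, f5, f6, f7, f8, f9⟩ := hu'
        left
        rcases le_or_gt a' n with han | han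
        · exact hC ⟨a', b', c', d', f1, f2, f3, han, by omega, f6, f7, f8, f9⟩
        · exact sub a' (f6 a' le_rfl f1) han.le (by omega)
      · left
        exact sub u' (run0 _ hu') h2.le (by omega)
  · rcases hu' with hu' | hu'
    · obtain ⟨a', b', c', d', f1, f2, f3, f4, f5, f6, f7, f8, f9⟩ := hu'
      left
      rcases le_or_gt a' n with han | han
      · exact hC ⟨a', b', c', d', f1, f2, f3, han, by omega, f6, f7, f8, f9⟩
      · by_cases hv : ∃ v, u < v ∧ v < a' ∧ v ∉ W
        · obtain ⟨v, hv1, hv2, hv3⟩ := hv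
          exact hC' (hole (run0 _ hu) (f6 a' le_rfl f1) h1 han.le (by omega) hv3 hv1 hv2)
        · push Not at hv
          refine hC ⟨n, b', c', d', by omega, f2, f3, le_rfl, by omega, ?_, f7, f8, f9⟩
          intro x hx1 hx2
          rcases le_or_gt a' x with hxa | hxa
          · exact f6 x hxa hx2
          · rcases eq_or_lt_of_le (show u ≤ x by omega) with heq | hlt
            · rw [← heq]; exact run0 _ hu
            · exact hv x hlt hxa
    · by_cases hv : ∃ v, u < v ∧ v < u' ∧ v ∉ W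
      · obtain ⟨v, hv1, hv2, hv3⟩ := hv
        left
        exact hC' (hole (run0 _ hu) (run0 _ hu') h1 h2.le h3 hv3 hv1 hv2)
      · push Not at hv
        right
        intro i hi
        rcases le_or_gt u' (n + i) with hge | hlt
        · have := hu' (n + i - u') (by omega)
          have he : u' + (n + i - u') = n + i := by omega
          rwa [he] at this
        · rcases eq_or_lt_of_le (show u ≤ n + i by omega) with heq | hlt'
          · rw [← heq]; exact run0 _ hu
          · exact hv _ hlt' hlt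

/-- If the runs of `W` are bounded and all `C H W` are interpolation sets, so is `W`. -/
theorem DI_of_clusters {W : Set ℕ} (L : ℕ) (hL : Run L W = ∅) (h : ∀ H, DI (C H W)) : DI W := by
  have key : ∀ j k, j + k = L → ∀ H, ∀ V, V ⊆ C H W ∪ Run k W → DI V := by
    intro j
    induction j with
    | zero =>
      intro k hk H V hV
      have : k = L := by omega
      rw [this, hL, Set.union_empty] at hV
      exact (h H).mono hV
    | succ j ih =>
      intro k hk H V hV
      refine DI_of_gaps fun H' => ?_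
      exact ih (k + 1) (by omega) (max H H') _ ((B_mono hV).trans (B_subset W H H' k))
  refine key L 0 (by omega) 0 W ?_
  intro n hn
  right
  intro i hi
  have : i = 0 := by omega
  rw [this]; exact hn

end Pool.Agent.Lib_MP_ff27c1_an
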