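import Mathlib

set_option autoImplicit false

open Filter Topology

namespace Pool.Agent.Lib_MP_ff27c1_an

attribute [local instance] Ultrafilter.add Ultrafilter.addSemigroup

/-- In a system whose points are pairwise non-proximal (forwards), every point is recurrent along
every IP set. -/
theorem ip_recurrence {X : Type} [MetricSpace X] [CompactSpace X] (T : X → X)
    (hT : Continuous T)
    (hd : ∀ x y : X, x ≠ y → ∃ ε : ℝ, 0 < ε ∧ ∀ n : ℕ, ε ≤ dist (T^[n] x) (T^[n] y))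
    (y : X) (a : Stream' ℕ) (V : Set X) (hV : V ∈ 𝓝 y) :
    ∃ s ∈ Hindman.FS a, T^[s] y ∈ V := by
  obtain ⟨U, hU, hFS⟩ := Hindman.exists_idempotent_ultrafilter_le_FS a
  -- the limit of `T^n y` along `U`
  obtain ⟨z, -, hz⟩ := isCompact_univ.ultrafilter_le_nhds (U.map fun n => T^[n] y) (by simp)
  have hz' : Tendsto (fun n => T^[n] y) U (𝓝 z) := hz
  have hzz : Tendsto (fun n => T^[n] z) U (𝓝 z) := by
    intro W hW
    obtain ⟨C, hC, hCc, hCW⟩ := exists_mem_nhds_isClosed_subset hW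
    have h1 : ∀ᶠ n in (U : Filter ℕ), T^[n] y ∈ C := hz' hC
    rw [← hU] at h1
    rw [Ultrafilter.eventually_add] at h1
    show ∀ᶠ n in (U : Filter ℕ), T^[n] z ∈ W
    filter_upwards [h1] with m hm
    apply hCW
    have h2 : Tendsto (fun n => T^[m] (T^[n] y)) U (𝓝 (T^[m] z)) :=
      ((hT.iterate m).tendsto z).comp hz'
    refine hCc.mem_of_tendsto h2 ?_
    filter_upwards [hm] with n hn
    rwa [← Function.iterate_add_apply]
  have hyz : y = z := by
    by_contra hne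
    obtain ⟨ε, hε, h⟩ := hd y z hne
    have h3 : Tendsto (fun n => dist (T^[n] y) (T^[n] z)) U (𝓝 (dist z z)) := hz'.dist hzz
    rw [dist_self] at h3
    have h4 := ge_of_tendsto' h3 h
    linarith
  have h5 : ∀ᶠ n in (U : Filter ℕ), T^[n] y ∈ V := by
    rw [← hyz] at hz'
    exact hz' hV
  obtain ⟨s, hs1, hs2⟩ := (hFS.and h5).exists
  exact ⟨s, hs1, hs2⟩

/-- Finite sums of a stream are sums over finite nonempty sets of indices. -/
theorem exists_finset_of_mem_FS (a : Stream' ℕ) (m : ℕ) (h : m ∈ Hindman.FS a) :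
    ∃ t : Finset ℕ, t.Nonempty ∧ ∑ i ∈ t, a.get i = m := by
  induction h with
  | head' a => exact ⟨{0}, by simp, by simp [Stream'.head]⟩
  | tail' a m _ ih =>
    obtain ⟨t, ht, hs⟩ := ih
    refine ⟨t.map ⟨Nat.succ, Nat.succ_injective⟩, by simpa using ht, ?_⟩
    rw [Finset.sum_map]
    simpa [Stream'.get_tail] using hs
  | cons' a m _ ih =>
    obtain ⟨t, ht, hs⟩ := ih
    refine ⟨insert 0 (t.map ⟨Nat.succ, Nat.succ_injective⟩), by simp, ?_⟩
    rw [Finset.sum_insert (by simp), Finset.sum_map]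
    have : ∑ x ∈ t, a.get (x + 1) = m := by simpa [Stream'.get_tail] using hs
    simp [Stream'.head, this]

/-- The `interpolation` property with the orbit closure and the distal map. -/
theorem finite_cube {S : Set ℕ}
    (hS : ∀ f : ℕ → ℂ, (∃ C : ℝ, ∀ n, ‖f n‖ ≤ C) →
      ∃ (X : Type) (_ : MetricSpace X) (_ : CompactSpace X) (T : X ≃ₜ X),
        (∀ x y : X, x ≠ y → ∃ ε : ℝ, 0 < ε ∧ ∀ n : ℕ,
            ε ≤ dist ((⇑T)^[n] x) ((⇑T)^[n] y) ∧
            ε ≤ dist ((⇑T.symm)^[n] x) ((⇑T.symm)^[n] y)) ∧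
        ∃ (x : X) (F : X → ℂ), Continuous F ∧
          ∀ k ∈ S, F ((⇑T)^[k] x) = f k)
    (a : ℕ → ℕ) (ha : ∀ i, 0 < a i) :
    ∃ m : ℕ, {n : ℕ | ∀ t ⊆ Finset.range m, n + ∑ i ∈ t, a i ∈ S}.Finite := by
  classical
  by_contra hcon
  push Not at hcon
  -- choose rapidly increasing base points
  have hch : ∀ m N : ℕ, ∃ n, N < n ∧ ∀ t ⊆ Finset.range m, n + ∑ i ∈ t, a i ∈ S := by
    intro m N
    have h1 : {n : ℕ | ∀ t ⊆ Finset.range m, n + ∑ i ∈ t, a i ∈ S}.Infinite := hcon m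
    obtain ⟨n, hn, hN⟩ := h1.exists_gt N
    exact ⟨n, hN, hn⟩
  choose g hg1 hg2 using hch
  let b : ℕ → ℕ := fun m => Nat.rec (g 0 0) (fun k prev => g (k + 1) (prev + ∑ i ∈ Finset.range k, a i)) m
  have hb1 : ∀ k, b k + ∑ i ∈ Finset.range k, a i < b (k + 1) := fun k => hg1 _ _
  have hb2 : ∀ m, ∀ t ⊆ Finset.range m, b m + ∑ i ∈ t, a i ∈ S := by
    intro m
    cases m with
    | zero => exact hg2 0 0
    | succ k => exact hg2 (k + 1) _
  have hbm : StrictMono b := strictMono_nat_of_lt_succ fun k =>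
    lt_of_le_of_lt (Nat.le_add_right _ _) (hb1 k)
  let f : ℕ → ℂ := fun n => if n ∈ Set.range b then 0 else 1
  obtain ⟨X, iM, iC, T, hd, x, F, hF, hfF⟩ := hS f ⟨1, fun n => by
    have h : f n = 0 ∨ f n = 1 := by
      by_cases h : n ∈ Set.range b
      · left; exact if_pos h
      · right; exact if_neg h
    rcases h with h | h <;> rw [h] <;> simp⟩
  -- the limit point
  obtain ⟨y, -, hy⟩ := isCompact_univ.ultrafilter_le_nhds
    ((hyperfilter ℕ).map fun m => (⇑T)^[b m] x) (by simp)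
  have hy' : Tendsto (fun m => (⇑T)^[b m] x) (hyperfilter ℕ) (𝓝 y) := hy
  have hFy : F y = 0 := by
    have h1 : Tendsto (fun m => F ((⇑T)^[b m] x)) (hyperfilter ℕ) (𝓝 (F y)) :=
      (hF.tendsto y).comp hy'
    have h2 : (fun m => F ((⇑T)^[b m] x)) = fun _ => (0 : ℂ) := by
      funext m
      rw [hfF (b m) (by simpa using hb2 m ∅ (by simp))]
      simp [f]
    rw [h2] at h1
    exact (tendsto_nhds_unique h1 tendsto_const_nhds)
  have hFs : ∀ t : Finset ℕ, t.Nonempty → F ((⇑T)^[∑ i ∈ t, a i] y) = 1 := by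
    intro t ht
    obtain ⟨M, hM⟩ : ∃ M, t ⊆ Finset.range M :=
      ⟨t.sup id + 1, fun i hi => Finset.mem_range.2 (Nat.lt_succ_of_le (Finset.le_sup (f := id) hi))⟩
    have h1 : Tendsto (fun m => F ((⇑T)^[∑ i ∈ t, a i] ((⇑T)^[b m] x))) (hyperfilter ℕ)
        (𝓝 (F ((⇑T)^[∑ i ∈ t, a i] y))) :=
      ((hF.comp (T.continuous.iterate _)).tendsto y).comp hy'
    have h2 : ∀ᶠ m in (hyperfilter ℕ : Filter ℕ), m ≥ M :=
      Nat.hyperfilter_le_atTop (eventually_ge_atTop M)
    have h3 : ∀ᶠ m in (hyperfilter ℕ : Filter ℕ),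
        F ((⇑T)^[∑ i ∈ t, a i] ((⇑T)^[b m] x)) = 1 := by
      filter_upwards [h2] with m hm
      have htm : t ⊆ Finset.range m := hM.trans (Finset.range_subset_range.2 hm)
      rw [← Function.iterate_add_apply, add_comm, hfF _ (hb2 m t htm)]
      have hpos : 0 < ∑ i ∈ t, a i := Finset.sum_pos (fun i _ => ha i) ht
      have hle : ∑ i ∈ t, a i ≤ ∑ i ∈ Finset.range m, a i :=
        Finset.sum_le_sum_of_subset htm
      have hnot : b m + ∑ i ∈ t, a i ∉ Set.range b := by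
        rintro ⟨j, hj⟩
        have h4 : b m < b j := by omega
        have h5 : b j < b (m + 1) := by have := hb1 m; omega
        have h6 : m < j := hbm.lt_iff_lt.1 h4
        have h7 : j < m + 1 := hbm.lt_iff_lt.1 h5
        omega
      simp only [f]
      rw [if_neg hnot]
    exact tendsto_nhds_unique (h1.congr' h3) tendsto_const_nhds
  obtain ⟨s, hs, hsV⟩ := ip_recurrence (⇑T) T.continuous
    (fun u v huv => by
      obtain ⟨ε, hε, h⟩ := hd u v huv
      exact ⟨ε, hε, fun n => (h n).1⟩) y (a : Stream' ℕ) {w | dist (F w) (F y) < 1}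
    (by
      have : {w | dist (F w) (F y) < 1} = F ⁻¹' Metric.ball (F y) 1 := rfl
      rw [this]
      exact hF.continuousAt.preimage_mem_nhds (Metric.ball_mem_nhds _ one_pos))
  obtain ⟨t, ht, hts⟩ := exists_finset_of_mem_FS _ s hs
  have hts' : ∑ i ∈ t, a i = s := hts
  rw [← hts'] at hsV
  have : dist (F ((⇑T)^[∑ i ∈ t, a i] y)) (F y) < 1 := hsV
  rw [hFs t ht, hFy] at this
  simp at this

end Pool.Agent.Lib_MP_ff27c1_an
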