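import Mathlib

set_option autoImplicit false

open Filter Topology

namespace Pool.Agent.Lib_MP_ff27c1_an

/-! ### An idempotent ultrafilter on finite sets under union -/

section Gamma

/-- Finite sets of naturals with union as multiplication. -/
@[instance_reducible]
def unionSemigroup : Semigroup (Finset ℕ) where
  mul := (· ∪ ·)
  mul_assoc := Finset.union_assoc

attribute [local instance] unionSemigroup Ultrafilter.mul Ultrafilter.semigroup

theorem exists_gamma : ∃ γ : Ultrafilter (Finset ℕ),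
    (∀ n, ∀ᶠ U : Finset ℕ in (γ : Filter (Finset ℕ)), U.Nonempty ∧ ∀ x ∈ U, n ≤ x) ∧
    (∀ P : Finset ℕ → Prop, (∀ᶠ V : Finset ℕ in (γ : Filter (Finset ℕ)), P V) →
      ∀ᶠ S : Finset ℕ in (γ : Filter (Finset ℕ)), ∀ᶠ U : Finset ℕ in (γ : Filter (Finset ℕ)),
        P (S ∪ U)) := by
  let S : Set (Ultrafilter (Finset ℕ)) :=
    ⋂ n, { U | ∀ᶠ m : Finset ℕ in U, m.Nonempty ∧ ∀ x ∈ m, n ≤ x }
  have h := exists_idempotent_in_compact_subsemigroup ?_ S ?_ ?_ ?_
  · rcases h with ⟨U, hU, U_idem⟩
    refine ⟨U, fun n => Set.mem_iInter.mp hU n, ?_⟩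
    intro P hP
    rw [← U_idem] at hP
    exact (Ultrafilter.eventually_mul U U P).1 hP
  · exact Ultrafilter.continuous_mul_left
  · apply IsCompact.nonempty_iInter_of_sequence_nonempty_isCompact_isClosed
    · intro n U hU
      have hU' : ∀ᶠ m : Finset ℕ in (U : Filter (Finset ℕ)), m.Nonempty ∧ ∀ x ∈ m, n + 1 ≤ x := hU
      show ∀ᶠ m : Finset ℕ in (U : Filter (Finset ℕ)), m.Nonempty ∧ ∀ x ∈ m, n ≤ x
      filter_upwards [hU'] with m hm
      exact ⟨hm.1, fun x hx => by have := hm.2 x hx; omega⟩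
    · intro n
      refine ⟨pure {n}, ?_⟩
      show ∀ᶠ m : Finset ℕ in ((pure {n} : Ultrafilter (Finset ℕ)) : Filter (Finset ℕ)),
        m.Nonempty ∧ ∀ x ∈ m, n ≤ x
      simp
    · exact (ultrafilter_isClosed_basic _).isCompact
    · intro n
      apply ultrafilter_isClosed_basic
  · exact IsClosed.isCompact (isClosed_iInter fun i => ultrafilter_isClosed_basic _)
  · intro U hU V hV
    rw [Set.mem_iInter] at *
    intro n
    show ∀ᶠ m : Finset ℕ in ((U * V : Ultrafilter (Finset ℕ)) : Filter (Finset ℕ)),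
      m.Nonempty ∧ ∀ x ∈ m, n ≤ x
    rw [Ultrafilter.eventually_mul]
    have hU' : ∀ᶠ m : Finset ℕ in (U : Filter (Finset ℕ)), m.Nonempty ∧ ∀ x ∈ m, n ≤ x := hU n
    have hV' : ∀ᶠ m : Finset ℕ in (V : Filter (Finset ℕ)), m.Nonempty ∧ ∀ x ∈ m, n ≤ x := hV n
    filter_upwards [hU'] with m hm
    filter_upwards [hV'] with m' hm'
    refine ⟨hm.1.mono Finset.subset_union_left, ?_⟩
    intro x hx
    rcases Finset.mem_union.1 hx with hx | hx
    · exact hm.2 x hx
    · exact hm'.2 x hx

end Gamma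

/-! ### Descending along binary trees -/

/-- Starting from the node `w` at level `i + k`, descend to level `i`, going right at the levels
in `U` and left at the others. -/
def desc (L R : ℕ → ℕ → ℕ) (U : Finset ℕ) (i : ℕ) : ℕ → ℕ → ℕ
  | 0, w => w
  | k + 1, w => desc L R U i k (if i + k ∈ U then R (i + k) w else L (i + k) w)

theorem desc_add (L R : ℕ → ℕ → ℕ) (U : Finset ℕ) (i k l w : ℕ) :
    desc L R U i (k + l) w = desc L R U i k (desc L R U (i + k) l w) := by
  induction l generalizing w with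
  | zero => rfl
  | succ l ih =>
    have h1 : k + (l + 1) = (k + l) + 1 := by ring
    rw [h1]
    simp only [desc]
    rw [ih, add_assoc]

theorem desc_congr (L R : ℕ → ℕ → ℕ) {U V : Finset ℕ} {i k : ℕ} (w : ℕ)
    (h : ∀ x, i ≤ x → x < i + k → (x ∈ U ↔ x ∈ V)) :
    desc L R U i k w = desc L R V i k w := by
  induction k generalizing w with
  | zero => rfl
  | succ k ih =>
    simp only [desc]
    rw [ih _ (fun x h1 h2 => h x h1 (by omega))]
    simp only [h (i + k) (by omega) (by omega)]

section Tree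

variable {T : ℕ → Set ℕ} {L R : ℕ → ℕ → ℕ} {K : ℕ → ℕ}

theorem desc_mem (hL : ∀ j w, w ∈ T (j + 1) → L j w ∈ T j)
    (hR : ∀ j w, w ∈ T (j + 1) → R j w ∈ T j) (U : Finset ℕ) (i k w : ℕ) (hw : w ∈ T (i + k)) :
    desc L R U i k w ∈ T i := by
  induction k generalizing w with
  | zero => exact hw
  | succ k ih =>
    simp only [desc]
    apply ih
    split
    · exact hR _ _ hw
    · exact hL _ _ hw

theorem desc_dist (hL : ∀ j w, w ∈ T (j + 1) → L j w ∈ T j)
    (hR : ∀ j w, w ∈ T (j + 1) → R j w ∈ T j)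
    (hLK : ∀ j w, w ∈ T (j + 1) → w ≤ L j w + K j ∧ L j w ≤ w + K j)
    (hRK : ∀ j w, w ∈ T (j + 1) → w ≤ R j w + K j ∧ R j w ≤ w + K j)
    (U : Finset ℕ) (i k w : ℕ) (hw : w ∈ T (i + k)) :
    w ≤ desc L R U i k w + ∑ x ∈ Finset.range (i + k), K x ∧
      desc L R U i k w ≤ w + ∑ x ∈ Finset.range (i + k), K x := by
  induction k generalizing w with
  | zero => simp [desc]
  | succ k ih =>
    simp only [desc]
    have h1 : i + (k + 1) = (i + k) + 1 := by ring
    rw [h1, Finset.sum_range_succ]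
    split
    · have h2 := ih (R (i + k) w) (hR _ _ hw)
      have h3 := hRK (i + k) w hw
      omega
    · have h2 := ih (L (i + k) w) (hL _ _ hw)
      have h3 := hLK (i + k) w hw
      omega

theorem tree_lemma
    (hinf : ∀ j, (T j).Infinite)
    (hL : ∀ j w, w ∈ T (j + 1) → L j w ∈ T j)
    (hR : ∀ j w, w ∈ T (j + 1) → R j w ∈ T j)
    (hLK : ∀ j w, w ∈ T (j + 1) → w ≤ L j w + K j ∧ L j w ≤ w + K j)
    (hRK : ∀ j w, w ∈ T (j + 1) → w ≤ R j w + K j ∧ R j w ≤ w + K j)
    (hstrict : ∀ j w, w ∈ T (j + 1) → ∀ A A' : Finset ℕ,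
      desc L R A 0 j (L j w) < desc L R A' 0 j (R j w)) :
    ∃ a : ℕ → ℕ, (∀ i, 0 < a i) ∧
      ∀ m, {n | ∀ t ⊆ Finset.range m, n + ∑ i ∈ t, a i ∈ T 0}.Infinite := by
  classical
  obtain ⟨γ, γ1, γ2⟩ := exists_gamma
  -- roots
  have hroot : ∀ j, ∃ r ∈ T j, j + ∑ x ∈ Finset.range j, K x < r := fun j =>
    (hinf j).exists_gt _
  choose r hr1 hr2 using hroot
  let M : Finset ℕ → ℕ := fun U => U.sup id + 1
  have hM : ∀ (U : Finset ℕ) (x : ℕ), x ∈ U → x < M U := fun U x hx =>
    Nat.lt_succ_of_le (Finset.le_sup (f := id) hx)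
  have hMmem : ∀ U : Finset ℕ, U.Nonempty → ∃ x ∈ U, M U = x + 1 := by
    intro U hU
    obtain ⟨x, hx, hx'⟩ := Finset.exists_mem_eq_sup U hU id
    exact ⟨x, hx, by simp only [M]; rw [hx']; rfl⟩
  let nd : ℕ → Finset ℕ → ℕ := fun i U => desc L R U i (M U - i) (r (M U))
  -- `U` is far beyond `i`
  let far : ℕ → Finset ℕ → Prop := fun i U => U.Nonempty ∧ ∀ x ∈ U, i ≤ x
  have hfarM : ∀ i U, far i U → i < M U := by
    intro i U hU
    obtain ⟨x, hx⟩ := hU.1
    have := hM U x hx
    have := hU.2 x hx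
    omega
  have hnd : ∀ i U, far i U → nd i U ∈ T i := by
    intro i U hU
    refine desc_mem hL hR U i (M U - i) _ ?_
    have := hfarM i U hU
    have he : i + (M U - i) = M U := by omega
    rw [he]
    exact hr1 _
  -- profiles
  have hprof : ∀ i (A : Finset ℕ), ∃ z : ℤ, ∀ᶠ U in γ,
      (desc L R A 0 i (nd i U) : ℤ) = (nd i U : ℤ) + z := by
    intro i A
    set B : ℤ := ((∑ x ∈ Finset.range i, K x : ℕ) : ℤ) with hB
    have h1 : ∀ᶠ U in (γ : Filter (Finset ℕ)), ∃ z ∈ Set.Icc (-B) B,
        (desc L R A 0 i (nd i U) : ℤ) = (nd i U : ℤ) + z := by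
      filter_upwards [γ1 i] with U hU
      have h2 := desc_dist hL hR hLK hRK A 0 i (nd i U) (by rw [zero_add]; exact hnd i U hU)
      rw [zero_add] at h2
      refine ⟨(desc L R A 0 i (nd i U) : ℤ) - (nd i U : ℤ), ?_, by ring⟩
      rw [Set.mem_Icc]
      constructor <;> omega
    rw [Ultrafilter.eventually_exists_mem_iff (Set.finite_Icc _ _)] at h1
    obtain ⟨z, -, hz⟩ := h1
    exact ⟨z, hz⟩
  choose τ hτ using hprof
  -- selectors
  have hsel : ∀ i, ∃ S : Finset ℕ, far i S ∧ ∀ A ∈ (Finset.range i).powerset, ∀ᶠ U in γ,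
      (desc L R A 0 i (nd i (S ∪ U)) : ℤ) = (nd i (S ∪ U) : ℤ) + τ i A := by
    intro i
    have h1 : ∀ᶠ S in (γ : Filter (Finset ℕ)), ∀ A ∈ (Finset.range i).powerset, ∀ᶠ U in γ,
        (desc L R A 0 i (nd i (S ∪ U)) : ℤ) = (nd i (S ∪ U) : ℤ) + τ i A := by
      rw [Filter.eventually_all_finset]
      intro A _
      exact γ2 _ (hτ i A)
    obtain ⟨S, hS1, hS2⟩ := ((γ1 i).and h1).exists
    exact ⟨S, hS1, hS2⟩
  choose σ hσ1 hσ2 using hsel
  -- additivity
  have hadd1 : ∀ i, ∀ A ⊆ Finset.range i, ∀ᶠ U in γ,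
      τ (M (σ i)) (A ∪ σ i) - τ i A = (nd i (σ i ∪ U) : ℤ) - (nd (M (σ i)) U : ℤ) := by
    intro i A hA
    filter_upwards [γ1 (M (σ i)), hτ (M (σ i)) (A ∪ σ i), hσ2 i A (Finset.mem_powerset.2 hA)]
      with U hU h1 h2
    have hi : i < M (σ i) := hfarM i _ (hσ1 i)
    have hMU : M (σ i) < M U := hfarM _ _ hU
    have hMunion : M (σ i ∪ U) = M U := by
      simp only [M, Finset.sup_union] at *
      have : (σ i).sup id ≤ U.sup id := by omega
      rw [sup_eq_right.2 this]
    have e1 : nd i (σ i ∪ U) = desc L R (σ i) i (M (σ i) - i) (nd (M (σ i)) U) := by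
      simp only [nd]
      rw [hMunion]
      have e : M U - i = (M (σ i) - i) + (M U - M (σ i)) := by omega
      rw [e, desc_add]
      have e' : i + (M (σ i) - i) = M (σ i) := by omega
      rw [e']
      rw [desc_congr L R (U := σ i ∪ U) (V := U) (i := M (σ i))]
      · refine desc_congr L R _ ?_
        intro x hx1 hx2
        rw [Finset.mem_union]
        constructor
        · rintro (hx | hx)
          · exact hx
          · have := hU.2 x hx; omega
        · exact fun hx => Or.inl hx
      · intro x hx1 hx2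
        rw [Finset.mem_union]
        constructor
        · rintro (hx | hx)
          · have := hM _ x hx; omega
          · exact hx
        · exact fun hx => Or.inr hx
    have e2 : desc L R (A ∪ σ i) 0 (M (σ i)) (nd (M (σ i)) U) =
        desc L R A 0 i (nd i (σ i ∪ U)) := by
      rw [e1]
      have e : M (σ i) = i + (M (σ i) - i) := by omega
      conv_lhs => rw [e]
      rw [desc_add, zero_add, ← e]
      rw [desc_congr L R (U := A ∪ σ i) (V := σ i) (i := i)]
      · refine desc_congr L R _ ?_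
        intro x hx1 hx2
        rw [Finset.mem_union]
        constructor
        · rintro (hx | hx)
          · exact hx
          · have := (hσ1 i).2 x hx; omega
        · exact fun hx => Or.inl hx
      · intro x hx1 hx2
        rw [Finset.mem_union]
        constructor
        · rintro (hx | hx)
          · have := Finset.mem_range.1 (hA hx); omega
          · exact hx
        · exact fun hx => Or.inr hx
    rw [e2, h2] at h1
    linarith
  have hadd2 : ∀ i, ∀ A ⊆ Finset.range i, ∀ᶠ U in γ,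
      τ (M (σ i)) A - τ i A = (nd i U : ℤ) - (nd (M (σ i)) U : ℤ) := by
    intro i A hA
    filter_upwards [γ1 (M (σ i)), hτ (M (σ i)) A, hτ i A] with U hU h1 h2
    have hi : i < M (σ i) := hfarM i _ (hσ1 i)
    have hMU : M (σ i) < M U := hfarM _ _ hU
    have e1 : nd i U = desc L R A i (M (σ i) - i) (nd (M (σ i)) U) := by
      simp only [nd]
      have e : M U - i = (M (σ i) - i) + (M U - M (σ i)) := by omega
      rw [e, desc_add]
      have e' : i + (M (σ i) - i) = M (σ i) := by omega
      rw [e']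
      refine desc_congr L R _ ?_
      intro x hx1 hx2
      constructor
      · intro hx; have := hU.2 x hx; omega
      · intro hx; have := Finset.mem_range.1 (hA hx); omega
    have e2 : desc L R A 0 (M (σ i)) (nd (M (σ i)) U) = desc L R A 0 i (nd i U) := by
      rw [e1]
      have e : M (σ i) = i + (M (σ i) - i) := by omega
      conv_lhs => rw [e]
      rw [desc_add, zero_add, ← e]
    rw [e2, h2] at h1
    linarith
  -- the levels
  let lev : ℕ → ℕ := fun k => Nat.rec 0 (fun _ i => M (σ i)) k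
  have hlev : ∀ k, lev (k + 1) = M (σ (lev k)) := fun k => rfl
  have hlevlt : ∀ k, lev k < lev (k + 1) := fun k => by
    rw [hlev]; exact hfarM _ _ (hσ1 _)
  have hlevmono : StrictMono lev := strictMono_nat_of_lt_succ hlevlt
  let bZ : ℕ → ℤ := fun k => τ (lev (k + 1)) (σ (lev k)) - τ (lev (k + 1)) ∅
  have hbpos : ∀ k, 0 < bZ k := by
    intro k
    obtain ⟨U, hU, h1, h2⟩ := ((γ1 (lev (k + 1))).and ((hτ (lev (k + 1)) (σ (lev k))).and
      (hτ (lev (k + 1)) ∅))).exists
    have hw := hnd _ _ hU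
    obtain ⟨x, hx, hMx⟩ := hMmem (σ (lev k)) (hσ1 _).1
    have hx' : lev (k + 1) = x + 1 := hMx
    rw [hx'] at h1 h2 hw
    have h3 := hstrict x _ hw ∅ (σ (lev k))
    simp only [desc, zero_add, hx, if_true, Finset.notMem_empty, if_false] at h1 h2
    have h4 : (desc L R ∅ 0 x (L x (nd (x + 1) U)) : ℤ) <
        (desc L R (σ (lev k)) 0 x (R x (nd (x + 1) U)) : ℤ) := by exact_mod_cast h3
    simp only [bZ]
    rw [hx']
    linarith
  have hsub : ∀ m, ∀ A ⊆ Finset.range m,
      (A.biUnion fun l => σ (lev l)) ⊆ Finset.range (lev m) := by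
    intro m A hA x hx
    obtain ⟨l, hl, hxl⟩ := Finset.mem_biUnion.1 hx
    rw [Finset.mem_range]
    have h1 : x < lev (l + 1) := hM _ _ hxl
    have h2 : l < m := Finset.mem_range.1 (hA hl)
    have h3 : lev (l + 1) ≤ lev m := hlevmono.monotone (show l + 1 ≤ m by omega)
    omega
  have hform : ∀ m, ∀ A ⊆ Finset.range m,
      τ (lev m) (A.biUnion fun l => σ (lev l)) = τ (lev m) ∅ + ∑ l ∈ A, bZ l := by
    intro m
    induction m with
    | zero =>
      intro A hA
      have : A = ∅ := by simpa using hA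
      rw [this]; simp
    | succ m ih =>
      intro A hA
      by_cases hm : m ∈ A
      · set A' := A.erase m with hA'
        have hA'sub : A' ⊆ Finset.range m := by
          intro x hx
          have hx1 := Finset.mem_of_mem_erase hx
          have hx2 := Finset.ne_of_mem_erase hx
          have := Finset.mem_range.1 (hA hx1)
          rw [Finset.mem_range]; omega
        have hAins : A = insert m A' := (Finset.insert_erase hm).symm
        have hun : (A.biUnion fun l => σ (lev l)) = (A'.biUnion fun l => σ (lev l)) ∪ σ (lev m) := by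
          rw [hAins, Finset.biUnion_insert, Finset.union_comm]
        obtain ⟨U, h1, h2⟩ := ((hadd1 (lev m) _ (hsub m A' hA'sub)).and
          (hadd1 (lev m) ∅ (Finset.empty_subset _))).exists
        rw [hun, hlev]
        rw [Finset.empty_union] at h2
        have h3 := ih A' hA'sub
        have h4 : ∑ l ∈ A, bZ l = bZ m + ∑ l ∈ A', bZ l := by
          rw [hAins, Finset.sum_insert (by simp [hA'])]
        rw [h4]
        simp only [bZ]
        rw [hlev]
        linarith
      · have hA'sub : A ⊆ Finset.range m := by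
          intro x hx
          have := Finset.mem_range.1 (hA hx)
          have hne : x ≠ m := fun h => hm (h ▸ hx)
          rw [Finset.mem_range]; omega
        obtain ⟨U, h1, h2⟩ := ((hadd2 (lev m) _ (hsub m A hA'sub)).and
          (hadd2 (lev m) ∅ (Finset.empty_subset _))).exists
        have h3 := ih A hA'sub
        rw [hlev]
        linarith
  refine ⟨fun k => (bZ k).toNat, fun k => by have := hbpos k; simp only; omega, ?_⟩
  intro m
  rw [Set.infinite_iff_exists_gt]
  intro N
  -- choose a generic `U`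
  have hall : ∀ᶠ U in (γ : Filter (Finset ℕ)), ∀ t ∈ (Finset.range m).powerset,
      (desc L R (t.biUnion fun l => σ (lev l)) 0 (lev m) (nd (lev m) U) : ℤ) =
        (nd (lev m) U : ℤ) + τ (lev m) (t.biUnion fun l => σ (lev l)) := by
    rw [Filter.eventually_all_finset]
    intro t _
    exact hτ _ _
  obtain ⟨U, hU1, hU2, hU3⟩ := ((γ1 (lev m)).and ((γ1 N).and hall)).exists
  have hall0 := hU3 ∅ (by simp)
  rw [Finset.biUnion_empty] at hall0
  set n : ℕ := desc L R ∅ 0 (lev m) (nd (lev m) U) with hn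
  refine ⟨n, ?_, ?_⟩
  · intro t ht
    have h1 := hU3 t (Finset.mem_powerset.2 ht)
    rw [hform m t ht] at h1
    have h2 : n + ∑ i ∈ t, (bZ i).toNat =
        desc L R (t.biUnion fun l => σ (lev l)) 0 (lev m) (nd (lev m) U) := by
      have h3 : ((∑ i ∈ t, (bZ i).toNat : ℕ) : ℤ) = ∑ i ∈ t, bZ i := by
        rw [Nat.cast_sum]
        refine Finset.sum_congr rfl fun i _ => ?_
        exact Int.toNat_of_nonneg (hbpos i).le
      have h4 : ((n + ∑ i ∈ t, (bZ i).toNat : ℕ) : ℤ) =
        (desc L R (t.biUnion fun l => σ (lev l)) 0 (lev m) (nd (lev m) U) : ℤ) := by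
        rw [Nat.cast_add, h3, h1, hall0]
        ring
      exact_mod_cast h4
    show n + ∑ i ∈ t, (bZ i).toNat ∈ T 0
    rw [h2]
    exact desc_mem hL hR _ 0 (lev m) _ (by rw [zero_add]; exact hnd _ _ hU1)
  · have hlt := hfarM _ _ hU1
    obtain ⟨U', hU'⟩ : ∃ U' : Finset ℕ, ∀ x, x ∈ U' ↔ x ∈ U ∧ lev m ≤ x :=
      ⟨U.filter (fun x => lev m ≤ x), fun x => by rw [Finset.mem_filter]⟩
    have h5 : n = desc L R U' 0 (M U) (r (M U)) := by
      have e : M U = lev m + (M U - lev m) := by omega
      conv_rhs => rw [e]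
      rw [desc_add, zero_add, ← e, hn]
      rw [desc_congr L R (U := U') (V := ∅) (i := 0)]
      · congr 1
        simp only [nd]
        refine desc_congr L R _ ?_
        intro x hx1 hx2
        rw [hU']
        exact ⟨fun hx => ⟨hx, hx1⟩, fun hx => hx.1⟩
      · intro x hx1 hx2
        rw [hU']
        constructor
        · rintro ⟨_, hx⟩; omega
        · intro hx; simp at hx
    have h6 := desc_dist hL hR hLK hRK U' 0 (M U) (r (M U))
      (by rw [zero_add]; exact hr1 _)
    rw [← h5, zero_add] at h6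
    have h7 := hr2 (M U)
    have h8 := hfarM N U hU2
    omega

end Tree

end Pool.Agent.Lib_MP_ff27c1_an
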