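import Mathlib
import Pool.Agent.Lib_MP_ff27c1_an.Recurrence
import Pool.Agent.Lib_MP_ff27c1_an.Cluster
import Pool.Agent.Lib_MP_ff27c1_an.Tree

set_option autoImplicit false

namespace Pool.Agent.Lib_MP_ff27c1_an

/-- `S` contains infinitely many translates of every finite initial cube of one infinite sequence. -/
def Cubes (S : Set ℕ) : Prop :=
  ∃ a : ℕ → ℕ, (∀ i, 0 < a i) ∧ ∀ m, {n | ∀ t ⊆ Finset.range m, n + ∑ i ∈ t, a i ∈ S}.Infinite

/-- `V` lies in the `K`-neighbourhood of `S`. -/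
def Near (S : Set ℕ) (K : ℕ) (V : Set ℕ) : Prop := ∀ v ∈ V, ∃ s ∈ S, s ≤ v + K ∧ v ≤ s + K

theorem cubes_of_runs {S V : Set ℕ} {K : ℕ} (hnear : Near S K V)
    (hrun : ∀ L, (Run L V).Nonempty) : Cubes S := by
  classical
  have hg : ∀ v, ∃ s, v ∈ V → s ∈ S ∧ s ≤ v + K ∧ v ≤ s + K := by
    intro v
    by_cases hv : v ∈ V
    · obtain ⟨s, hs⟩ := hnear v hv
      exact ⟨s, fun _ => hs⟩
    · exact ⟨0, fun h => absurd h hv⟩
  choose g hg using hg
  set D : ℕ := 2 * K + 1 with hD
  let T : ℕ → Set ℕ := fun k => match k with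
    | 0 => S
    | k + 1 => {n | ∀ t, t < 2 ^ (k + 1) → n + D * t ∈ V}
  let L : ℕ → ℕ → ℕ := fun k n => match k with
    | 0 => g n
    | _ + 1 => n
  let R : ℕ → ℕ → ℕ := fun k n => match k with
    | 0 => g (n + D)
    | k + 1 => n + D * 2 ^ (k + 1)
  let Kb : ℕ → ℕ := fun k => match k with
    | 0 => D + K
    | k + 1 => D * 2 ^ (k + 1)
  have hT0 : ∀ w, w ∈ T 1 → w ∈ V ∧ w + D ∈ V := by
    intro w hw
    refine ⟨?_, ?_⟩
    · simpa using hw 0 (by norm_num)
    · simpa using hw 1 (by norm_num)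
  have hform : ∀ (A : Finset ℕ) (k w : ℕ), ∃ c, c < 2 ^ (k + 1) ∧
      desc L R A 0 (k + 1) w = g (w + D * c) := by
    intro A k
    induction k with
    | zero =>
      intro w
      by_cases h : 0 ∈ A
      · exact ⟨1, by norm_num, by simp [desc, h, R]⟩
      · exact ⟨0, by norm_num, by simp [desc, h, L]⟩
    | succ k ih =>
      intro w
      by_cases h : k + 1 ∈ A
      · obtain ⟨c, hc1, hc2⟩ := ih (w + D * 2 ^ (k + 1))
        refine ⟨2 ^ (k + 1) + c, ?_, ?_⟩
        · rw [pow_succ 2 (k + 1)]; omega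
        · have e : desc L R A 0 (k + 1 + 1) w = desc L R A 0 (k + 1) (w + D * 2 ^ (k + 1)) := by
            rw [desc, zero_add, if_pos h]
          rw [e, hc2]
          congr 1
          ring
      · obtain ⟨c, hc1, hc2⟩ := ih w
        refine ⟨c, ?_, ?_⟩
        · rw [pow_succ 2 (k + 1)]; omega
        · have e : desc L R A 0 (k + 1 + 1) w = desc L R A 0 (k + 1) w := by
            rw [desc, zero_add, if_neg h]
          rw [e, hc2]
  refine tree_lemma (T := T) (L := L) (R := R) (K := Kb) ?_ ?_ ?_ ?_ ?_ ?_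
  · intro j
    rw [Set.infinite_iff_exists_gt]
    intro N
    cases j with
    | zero =>
      obtain ⟨n, hn⟩ := hrun (N + K + 1)
      obtain ⟨h1, h2, h3⟩ := hg (n + (N + K + 1)) (hn _ le_rfl)
      exact ⟨_, h1, by omega⟩
    | succ k =>
      obtain ⟨n, hn⟩ := hrun (D * 2 ^ (k + 1) + N + 1)
      refine ⟨n + (N + 1), ?_, by omega⟩
      intro t ht
      have h1 : D * t ≤ D * 2 ^ (k + 1) := Nat.mul_le_mul_left _ ht.le
      have h2 := hn (N + 1 + D * t) (by omega)
      have h3 : n + (N + 1) + D * t = n + (N + 1 + D * t) := by ring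
      rw [h3]; exact h2
  · intro j w hw
    cases j with
    | zero => exact (hg w (hT0 w hw).1).1
    | succ k =>
      intro t ht
      exact hw t (lt_of_lt_of_le ht (Nat.pow_le_pow_right (by norm_num) (by omega)))
  · intro j w hw
    cases j with
    | zero => exact (hg _ (hT0 w hw).2).1
    | succ k =>
      intro t ht
      have h1 := hw (2 ^ (k + 1) + t) (by rw [pow_succ 2 (k + 1)]; omega)
      have h2 : w + D * 2 ^ (k + 1) + D * t = w + D * (2 ^ (k + 1) + t) := by ring
      show w + D * 2 ^ (k + 1) + D * t ∈ V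
      rw [h2]; exact h1
  · intro j w hw
    cases j with
    | zero =>
      have h1 := (hg w (hT0 w hw).1).2
      show w ≤ g w + (D + K) ∧ g w ≤ w + (D + K)
      omega
    | succ k =>
      show w ≤ w + D * 2 ^ (k + 1) ∧ w ≤ w + D * 2 ^ (k + 1)
      omega
  · intro j w hw
    cases j with
    | zero =>
      have h1 := (hg _ (hT0 w hw).2).2
      show w ≤ g (w + D) + (D + K) ∧ g (w + D) ≤ w + (D + K)
      omega
    | succ k =>
      show w ≤ w + D * 2 ^ (k + 1) + D * 2 ^ (k + 1) ∧ w + D * 2 ^ (k + 1) ≤ w + D * 2 ^ (k + 1)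
      omega
  · intro j w hw A A'
    cases j with
    | zero =>
      have h1 := (hg w (hT0 w hw).1).2
      have h2 := (hg _ (hT0 w hw).2).2
      show g w < g (w + D)
      omega
    | succ k =>
      obtain ⟨c, hc1, hc2⟩ := hform A k (L (k + 1) w)
      obtain ⟨c', hc'1, hc'2⟩ := hform A' k (R (k + 1) w)
      rw [hc2, hc'2]
      have e1 : L (k + 1) w = w := rfl
      have e2 : R (k + 1) w = w + D * 2 ^ (k + 1) := rfl
      rw [e1, e2]
      have e3 : w + D * 2 ^ (k + 1) + D * c' = w + D * (2 ^ (k + 1) + c') := by ring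
      rw [e3]
      have h1 := (hg _ (hw c (by rw [pow_succ 2 (k + 1)]; omega))).2
      have h2 := (hg _ (hw (2 ^ (k + 1) + c') (by rw [pow_succ 2 (k + 1)]; omega))).2
      have h3 : D * (c + 1) ≤ D * (2 ^ (k + 1) + c') := Nat.mul_le_mul_left _ (by omega)
      have h4 : D * (c + 1) = D * c + D := by ring
      omega

theorem near_C {S V : Set ℕ} {K H L : ℕ} (hnear : Near S K V) (hL : Run L V = ∅) :
    Near S (K + L + H) (C H V) := by
  rintro n ⟨a, b, c, d, h1, h2, h3, h4, h5, h6, h7, h8, h9⟩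
  have hrun : ∀ x y, x ≤ y → (∀ z, x ≤ z → z ≤ y → z ∈ V) → y < x + L := by
    intro x y hxy h
    by_contra hcon
    have : x ∈ Run L V := fun i hi => h _ (by omega) (by omega)
    rw [hL] at this
    exact this
  have hab := hrun a b h1 h6
  have hcd := hrun c d h3 h7
  obtain ⟨s, hs, hs1, hs2⟩ := hnear b (h6 b h1 le_rfl)
  exact ⟨s, hs, by omega, by omega⟩

/-- The combinatorial half of the characterisation. -/
theorem DI_of_not_cubes {S : Set ℕ} (hS : ¬ Cubes S) : DI S := by
  classical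
  by_contra hDI
  -- the successor step
  have hstep : ∀ p : {p : Set ℕ × ℕ // Near S p.2 p.1 ∧ ¬ DI p.1},
      ∃ (H L : ℕ) (q : {p : Set ℕ × ℕ // Near S p.2 p.1 ∧ ¬ DI p.1}),
        Run L p.1.1 = ∅ ∧ q.1.1 = C H p.1.1 := by
    rintro ⟨⟨V, K⟩, hV, hVD⟩
    have hL : ∃ L, Run L V = ∅ := by
      by_contra hcon
      push Not at hcon
      exact hS (cubes_of_runs hV hcon)
    obtain ⟨L, hL⟩ := hL
    have hH : ∃ H, ¬ DI (C H V) := by
      by_contra hcon
      push Not at hcon
      exact hVD (DI_of_clusters L hL hcon)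
    obtain ⟨H, hH⟩ := hH
    exact ⟨H, L, ⟨⟨C H V, K + L + H⟩, near_C hV hL, hH⟩, hL, rfl⟩
  choose Hf Lf nxt hLf hnxt using hstep
  let st : ℕ → {p : Set ℕ × ℕ // Near S p.2 p.1 ∧ ¬ DI p.1} := fun j =>
    Nat.rec ⟨⟨S, 0⟩, fun v hv => ⟨v, hv, by omega, by omega⟩, hDI⟩ (fun _ p => nxt p) j
  let V : ℕ → Set ℕ := fun j => (st j).1.1
  have hV0 : V 0 = S := rfl
  have hVs : ∀ j, V (j + 1) = C (Hf (st j)) (V j) := fun j => hnxt (st j)
  have hrunE : ∀ j, Run (Lf (st j)) (V j) = ∅ := fun j => hLf (st j)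
  have hVinf : ∀ j, (V j).Infinite := by
    intro j hfin
    exact (st j).2.2 (DI_of_finite hfin)
  have hrun : ∀ j x y, x ≤ y → (∀ z, x ≤ z → z ≤ y → z ∈ V j) → y < x + Lf (st j) := by
    intro j x y hxy h
    by_contra hcon
    have : x ∈ Run (Lf (st j)) (V j) := fun i hi => h _ (by omega) (by omega)
    rw [hrunE] at this
    exact this
  have hch : ∀ j w, ∃ a b c d, w ∈ V (j + 1) →
      (a ≤ b ∧ b < c ∧ c ≤ d ∧ a ≤ w ∧ w ≤ d ∧ (∀ x, a ≤ x → x ≤ b → x ∈ V j) ∧
    (∀ x, c ≤ x → x ≤ d → x ∈ V j) ∧ c ≤ b + Hf (st j) ∧ b + 1 ∉ V j) := by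
    intro j w
    by_cases hw : w ∈ V (j + 1)
    · rw [hVs] at hw
      obtain ⟨a, b, c, d, h⟩ := hw
      exact ⟨a, b, c, d, fun _ => h⟩
    · exact ⟨0, 0, 0, 0, fun h => absurd h hw⟩
  choose a b c d hch using hch
  have hbV : ∀ j w, w ∈ V (j + 1) → b j w ∈ V j := fun j w hw => by
    obtain ⟨h1, h2, h3, h4, h5, h6, h7, h8, h9⟩ := hch j w hw
    exact h6 _ h1 le_rfl
  have hcV : ∀ j w, w ∈ V (j + 1) → c j w ∈ V j := fun j w hw => by
    obtain ⟨h1, h2, h3, h4, h5, h6, h7, h8, h9⟩ := hch j w hw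
    exact h7 _ le_rfl h3
  -- leaves stay in the component
  have hleaf : ∀ j w, w ∈ V j → ∀ A : Finset ℕ, ∀ x,
      min (desc b c A 0 j w) w ≤ x → x ≤ max (desc b c A 0 j w) w → x ∈ V j := by
    intro j
    induction j with
    | zero =>
      intro w hw A x hx1 hx2
      simp only [desc, min_self, max_self] at hx1 hx2
      have : x = w := by omega
      rw [this]; exact hw
    | succ j ih =>
      intro w hw A x hx1 hx2
      obtain ⟨h1, h2, h3, h4, h5, h6, h7, h8, h9⟩ := hch j w hw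
      rw [desc, zero_add] at hx1 hx2
      by_cases hj : j ∈ A
      · rw [if_pos hj] at hx1 hx2
        have hih := ih (c j w) (hcV j w hw) A
        set l := desc b c A 0 j (c j w) with hl
        have hl1 : b j w + 1 < l := by
          by_contra hcon
          refine h9 (hih _ ?_ ?_)
          · exact (min_le_left _ _).trans (by omega)
          · exact le_trans (by omega) (le_max_right _ _)
        rw [hVs]
        rcases le_or_gt l (d j w) with hld | hld
        · refine ⟨a j w, b j w, c j w, d j w, h1, h2, h3, ?_, ?_, h6, h7, h8, h9⟩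
          · exact le_trans (le_min (by omega) h4) hx1
          · exact le_trans hx2 (max_le hld h5)
        · refine ⟨a j w, b j w, c j w, l, h1, h2, by omega, ?_, ?_, h6, ?_, h8, h9⟩
          · exact le_trans (le_min (by omega) h4) hx1
          · exact le_trans hx2 (max_le le_rfl (by omega))
          · intro y hy1 hy2
            exact hih y ((min_le_right _ _).trans hy1) (hy2.trans (le_max_left _ _))
      · rw [if_neg hj] at hx1 hx2
        have hih := ih (b j w) (hbV j w hw) A
        set l := desc b c A 0 j (b j w) with hl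
        have hl1 : l ≤ b j w := by
          by_contra hcon
          refine h9 (hih _ ?_ ?_)
          · exact (min_le_right _ _).trans (by omega)
          · exact le_trans (by omega) (le_max_left _ _)
        rw [hVs]
        rcases le_or_gt (a j w) l with hal | hal
        · refine ⟨a j w, b j w, c j w, d j w, h1, h2, h3, ?_, ?_, h6, h7, h8, h9⟩
          · exact le_trans (le_min hal h4) hx1
          · exact le_trans hx2 (max_le (by omega) h5)
        · refine ⟨l, b j w, c j w, d j w, hl1, h2, h3, ?_, ?_, ?_, h7, h8, h9⟩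
          · exact le_trans (le_min le_rfl (by omega)) hx1
          · exact le_trans hx2 (max_le (by omega) h5)
          · intro y hy1 hy2
            exact hih y ((min_le_left _ _).trans hy1) (hy2.trans (le_max_right _ _))
  have hcubes := tree_lemma (T := V) (L := b) (R := c) (K := fun j => Lf (st j) + Hf (st j))
    hVinf hbV hcV ?_ ?_ ?_
  · rw [hV0] at hcubes
    exact hS hcubes
  · intro j w hw
    obtain ⟨h1, h2, h3, h4, h5, h6, h7, h8, h9⟩ := hch j w hw
    have hab := hrun j _ _ h1 h6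
    have hcd := hrun j _ _ h3 h7
    omega
  · intro j w hw
    obtain ⟨h1, h2, h3, h4, h5, h6, h7, h8, h9⟩ := hch j w hw
    have hab := hrun j _ _ h1 h6
    have hcd := hrun j _ _ h3 h7
    omega
  · intro j w hw A A'
    obtain ⟨h1, h2, h3, h4, h5, h6, h7, h8, h9⟩ := hch j w hw
    have hl1 : desc b c A 0 j (b j w) ≤ b j w := by
      by_contra hcon
      refine h9 (hleaf j _ (hbV j w hw) A _ ?_ ?_)
      · exact (min_le_right _ _).trans (by omega)
      · exact le_trans (by omega) (le_max_left _ _)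
    have hl2 : b j w + 1 < desc b c A' 0 j (c j w) := by
      by_contra hcon
      refine h9 (hleaf j _ (hcV j w hw) A' _ ?_ ?_)
      · exact (min_le_left _ _).trans (by omega)
      · exact le_trans (by omega) (le_max_right _ _)
    omega

/-- Full characterisation of the interpolation sets for distal systems. -/
theorem interpolation_iff (S : Set ℕ) :
    (∀ f : ℕ → ℂ, (∃ C : ℝ, ∀ n, ‖f n‖ ≤ C) →
      ∃ (X : Type) (_ : MetricSpace X) (_ : CompactSpace X) (T : X ≃ₜ X),
        (∀ x y : X, x ≠ y → ∃ ε : ℝ, 0 < ε ∧ ∀ n : ℕ,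
            ε ≤ dist ((⇑T)^[n] x) ((⇑T)^[n] y) ∧
            ε ≤ dist ((⇑T.symm)^[n] x) ((⇑T.symm)^[n] y)) ∧
        ∃ (x : X) (F : X → ℂ), Continuous F ∧
          ∀ k : ℕ, k ∈ S → F ((⇑T)^[k] x) = f k) ↔
    ∀ a : ℕ → ℕ, (∀ i, 0 < a i) →
      ∃ m : ℕ, {n : ℕ | ∀ t ⊆ Finset.range m, n + ∑ i ∈ t, a i ∈ S}.Finite := by
  constructor
  · exact fun h a ha => finite_cube h a ha
  · intro h
    have hS : ¬ Cubes S := by
      rintro ⟨a, ha, hinf⟩
      obtain ⟨m, hm⟩ := h a ha
      exact hinf m hm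
    exact fun f hf => (DI_of_not_cubes hS).complex f hf

end Pool.Agent.Lib_MP_ff27c1_an
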